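import Pool.Agent.Lib.MP_12eaff_co.Frz.FB.Defs

set_option autoImplicit false
set_option linter.unusedSectionVars false

/-! Clusters exist around every large clique and are disjoint. -/

namespace Pool.Agent.Lib.MP_12eaff_co.Frz.FB

open Finset Pool.Agent.Lib.MP_12eaff_co.Frz.BK Pool.Agent.Lib.MP_12eaff_co.Frz.Acc2
open scoped Classical

variable {V : Type} [Fintype V] {G : SimpleGraph V} {D : ℕ} {Dm Y W Y' W' K : Finset V}

namespace CluA

theorem meet {A B : Finset V} {v : V} (hA : IsClq G A) (hB : IsClq G B) (a : v ∈ A) (b : v ∈ B)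
    (hd : (nb G v).card ≤ D + 1) : A.card + B.card ≤ (A ∩ B).card + D + 2 := by
  have e : (A ∪ B).card ≤ (insert v (nb G v)).card := card_le_card fun x hx => by
    rw [mem_insert, mem_nb, or_iff_not_imp_left]
    exact fun n => (mem_union.1 hx).elim (fun p => hA v a x p (Ne.symm n))
      fun p => hB v b x p (Ne.symm n)
  have := card_insert_le v (nb G v)
  have := card_union_add_card_inter A B
  omega

theorem clq_ins {A : Finset V} {z : V} (hA : IsClq G A) (h : ∀ w ∈ A, G.Adj z w) :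
    IsClq G (insert z A) := fun a ha b hb e => by
  rcases mem_insert.1 ha with rfl | p <;> rcases mem_insert.1 hb with rfl | q
  exacts [absurd rfl e, h b q, (h a p).symm, hA a p b q e]

/-- A large clique of the cluster through a given member. -/
theorem exB (h : Clu G D Dm Y W) {x : V} (hx : x ∈ Y ∪ W) : ∃ B, IsClq G B ∧ x ∈ B ∧ Y ⊆ B ∧
    B ⊆ Y ∪ W ∧ D ≤ B.card + 4 ∧ B.card ≤ Y.card + 1 ∧
    ∀ a ∈ Y ∪ W, ∀ b ∈ Y ∪ W, a ∉ B → b ∉ B → a = b := by
  have big := h.big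
  rcases h.tw with rfl | ⟨a, b, ab, -, rfl⟩
  · exact ⟨Y, h.clq, by simpa using hx, Subset.rfl, subset_union_left, by simpa using big,
      by omega, fun a ha _ _ n => absurd (by simpa using ha) n⟩
  · rw [if_neg (insert_ne_empty _ _)] at big
    have key : ∀ c d : V, ({a, b} : Finset V) = {c, d} → x ∈ insert c Y → ∃ B, IsClq G B ∧ x ∈ B ∧
        Y ⊆ B ∧ B ⊆ Y ∪ {a, b} ∧ D ≤ B.card + 4 ∧ B.card ≤ Y.card + 1 ∧
        ∀ p ∈ Y ∪ {a, b}, ∀ q ∈ Y ∪ {a, b}, p ∉ B → q ∉ B → p = q := fun c d e m => by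
      have hc : c ∈ ({a, b} : Finset V) := e ▸ mem_insert_self _ _
      have nc : c ∉ Y := fun z => (h.join c z c hc).ne rfl
      refine ⟨insert c Y, clq_ins h.clq fun w hw => (h.join w hw c hc).symm, m, subset_insert _ _,
        insert_subset (mem_union_right _ hc) subset_union_left, ?_, card_insert_le _ _,
        fun p hp q hq n1 n2 => ?_⟩
      · rw [card_insert_of_notMem nc]
        omega
      · rw [e] at hp hq
        simp only [mem_union, mem_insert, mem_singleton, not_or] at hp hq n1 n2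
        grind
    by_cases c : x = b
    · exact key b a (pair_comm _ _) (c ▸ mem_insert_self _ _)
    · refine key a b rfl ?_
      simp only [mem_union, mem_insert, mem_singleton] at hx ⊢
      tauto

theorem sub (hs : AT.Stat G D Dm) (hd : ∀ v, v ∉ Dm → (nb G v).card ≤ D + 1) (hD : 14 ≤ D)
    (h : Clu G D Dm Y W) (h' : Clu G D Dm Y' W') {v : V} (a : v ∈ Y) (b : v ∈ Y') :
    Y' ∪ W' ⊆ Y ∪ W := fun x hx => by
  by_contra n
  obtain ⟨w, w1, w', w2, ne, n1, n2⟩ := h.far x (h'.real x hx) n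
  obtain ⟨B, b1, -, b3, b4, b5, -⟩ := exB h (mem_union_left W a)
  obtain ⟨B', c1, c2, c3, c4, c5, -, c7⟩ := exB h' hx
  have := meet b1 c1 (b3 a) (c3 b) (hd v (h.real v (mem_union_left _ a)))
  obtain ⟨u, hu⟩ := hs.two4 b1 c1 (fun z hz => (mem_union.1 hz).elim
    (fun p => h.real z (b4 p)) fun p => h'.real z (c4 p)) (by omega)
  have nx : ∀ y ∈ Y, x ≠ y := fun y hy e => n (mem_union_left _ (e ▸ hy))
  have m : ∀ y ∈ Y, y ≠ u → y ∈ (B ∪ B').erase u := fun y hy e =>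
    mem_erase.2 ⟨e, mem_union_left _ (b3 hy)⟩
  obtain rfl : x = u := by
    by_contra e
    have xm : x ∈ (B ∪ B').erase u := mem_erase.2 ⟨e, mem_union_right _ c2⟩
    by_cases q : w = u
    · exact n2 (hu x xm w' (m w' w2 fun z => ne (q.trans z.symm)) (nx w' w2))
    · exact n1 (hu x xm w (m w w1 q) (nx w w1))
  have key : ∀ y ∈ Y, ¬ G.Adj x y → y ∈ Y' ∪ W' ∧ y ∉ B' := fun y hy ny => by
    have nb' : y ∉ B' := fun z => ny (c1 x c2 y z (nx y hy))
    refine ⟨by_contra fun z => ?_, nb'⟩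
    obtain ⟨s, s1, s', s2, ns, k1, k2⟩ := h'.far y (h.real y (mem_union_left _ hy)) z
    have ad : ∀ t ∈ Y', t ≠ x → G.Adj y t := fun t ht e =>
      hu y (m y hy (nx y hy).symm) t (mem_erase.2 ⟨e, mem_union_right _ (c3 ht)⟩)
        fun z => nb' (z ▸ c3 ht)
    by_cases q : s = x
    · exact k2 (ad s' s2 fun z => ns (q.trans z.symm))
    · exact k1 (ad s s1 q)
  exact ne (c7 w (key w w1 n1).1 w' (key w' w2 n2).1 (key w w1 n1).2 (key w' w2 n2).2)

theorem subW (h : Clu G D Dm Y W) (h' : Clu G D Dm Y' W') (e : Y ∪ W ⊆ Y' ∪ W') : W ⊆ W' :=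
  fun x hx => by
    obtain ⟨y, y1, y2, y3⟩ : ∃ y ∈ W, x ≠ y ∧ ¬ G.Adj x y := by
      rcases h.tw with rfl | ⟨a, b, ab, n, rfl⟩
      · simp at hx
      · rcases mem_insert.1 hx with rfl | q
        · exact ⟨b, by simp, ab, n⟩
        · rw [mem_singleton.1 q]
          exact ⟨a, by simp, ab.symm, fun z => n z.symm⟩
    refine (mem_union.1 (e (mem_union_right _ hx))).resolve_left fun p => y3 ?_
    exact (mem_union.1 (e (mem_union_right _ y1))).elim (fun q => h'.clq x p y q y2)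
      fun q => h'.join x p y q

end CluA

open CluA

theorem clu_exists (hs : AT.Stat G D Dm) (hk : NoK G D Dm)
    (hd : ∀ v, v ∉ Dm → (nb G v).card ≤ D + 1) (hD : 14 ≤ D) (hK : IsClq G K)
    (o : ∀ v ∈ K, v ∉ Dm) (big : D ≤ K.card + 4) :
    ∃ Y W, Clu G D Dm Y W ∧ (K \ (Y ∪ W)).card ≤ 1 := by
  obtain ⟨v₀, hv₀⟩ := card_pos.1 (by omega : 0 < K.card)
  obtain ⟨B, hB, mx⟩ := exists_max_image
    (univ.filter fun B : Finset V => IsClq G B ∧ (∀ v ∈ B, v ∉ Dm) ∧ ∃ v ∈ B, v ∈ K) card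
    ⟨K, mem_filter.2 ⟨mem_univ _, hK, o, v₀, hv₀, hv₀⟩⟩
  obtain ⟨-, b1, b2, v, v1, v2⟩ := mem_filter.1 hB
  have M : ∀ A, IsClq G A → (∀ v ∈ A, v ∉ Dm) → (∃ v ∈ A, v ∈ K) → A.card ≤ B.card :=
    fun A a1 a2 a3 => mx A (mem_filter.2 ⟨mem_univ _, a1, a2, a3⟩)
  have l1 := M K hK o ⟨v₀, hv₀, hv₀⟩
  have l2 := hk B b1 b2
  have l3 := meet b1 hK v1 v2 (hd v (b2 v v1))
  have er : ∀ u, ∃ x ∈ B, x ∈ K ∧ x ≠ u := fun u => by
    obtain ⟨x, x1, x2⟩ := exists_mem_notMem_of_card_lt_card (s := {u}) (t := B ∩ K)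
      (by rw [card_singleton]; omega)
    exact ⟨x, (mem_inter.1 x1).1, (mem_inter.1 x1).2, fun e => x2 (mem_singleton.2 e)⟩
  have kb : (K \ B).card ≤ 1 := by
    have oo : ∀ z ∈ B ∪ K, z ∉ Dm := fun z hz => (mem_union.1 hz).elim (b2 z) (o z)
    obtain ⟨u, hu⟩ := hs.two4 b1 hK oo (by omega)
    obtain ⟨x, x1, x2, x3⟩ := er u
    have := M _ hu (fun z hz => oo z (mem_of_mem_erase hz))
      ⟨x, mem_erase.2 ⟨x3, mem_union_left _ x1⟩, x2⟩
    have := pred_card_le_card_erase (s := B ∪ K) (a := u)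
    have := card_sdiff_add_card K B
    rw [union_comm] at this
    omega
  have mxB : ∀ z, z ∉ Dm → z ∉ B → ∃ w ∈ B, ¬ G.Adj z w := fun z z1 z2 => by
    by_contra! k
    have := M _ (clq_ins b1 k) (fun t ht => (mem_insert.1 ht).elim (· ▸ z1) (b2 t))
      ⟨v, mem_insert_of_mem v1, v2⟩
    rw [card_insert_of_notMem z2] at this
    omega
  by_cases c : ∀ z, z ∉ Dm → z ∉ B → ∃ w ∈ B, ∃ w' ∈ B, w ≠ w' ∧ ¬ G.Adj z w ∧ ¬ G.Adj z w'
  · exact ⟨B, ∅, ⟨by simpa using b2, b1, .inl rfl, by simp, by rw [if_pos rfl]; omega,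
      by rw [if_pos rfl]; omega, by simpa using c⟩, by simpa using kb⟩
  push Not at c
  obtain ⟨z, z1, z2, z3⟩ := c
  obtain ⟨b, m1, m2⟩ := mxB z z1 z2
  have cY : IsClq G (B.erase b) := fun p hp q hq =>
    b1 p (mem_of_mem_erase hp) q (mem_of_mem_erase hq)
  have oY : ∀ w ∈ B.erase b, w ∉ Dm := fun w hw => b2 w (mem_of_mem_erase hw)
  have j : ∀ y ∈ B.erase b, G.Adj y z ∧ G.Adj y b := fun y hy =>
    ⟨(z3 b m1 y (mem_of_mem_erase hy) (ne_of_mem_erase hy).symm m2).symm,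
      b1 y (mem_of_mem_erase hy) b m1 (ne_of_mem_erase hy)⟩
  have zb : z ≠ b := fun e => z2 (e ▸ m1)
  have cc := card_erase_add_one m1
  refine ⟨B.erase b, {z, b}, ⟨fun w hw => ?_, cY, .inr ⟨z, b, zb, m2, rfl⟩, fun y hy a ha => ?_,
    by rw [if_neg (insert_ne_empty _ _)]; omega, by rw [if_neg (insert_ne_empty _ _)]; omega,
    fun t t1 t2 => ?_⟩, le_trans (card_le_card (sdiff_subset_sdiff Subset.rfl fun x hx => ?_)) kb⟩
  · simp only [mem_union, mem_insert, mem_singleton] at hw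
    rcases hw with p | rfl | rfl
    exacts [oY w p, z1, b2 _ m1]
  · rcases mem_insert.1 ha with rfl | q
    · exact (j y hy).1
    · exact mem_singleton.1 q ▸ (j y hy).2
  · by_contra! k
    simp only [mem_union, mem_insert, mem_singleton, not_or] at t2
    have c1 : ((B.erase b).filter fun w => ¬ G.Adj t w).card ≤ 1 :=
      card_le_one.2 fun p hp q hq => by_contra fun e =>
        (mem_filter.1 hq).2 (k p (mem_filter.1 hp).1 q (mem_filter.1 hq).1 e (mem_filter.1 hp).2)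
    have c2 := card_filter_add_card_filter_not (s := B.erase b) (G.Adj t)
    have al := hs.core_three cY (by omega) oY ⟨z1, b2 b m1, t1⟩ j zb m2 t2.1 (by omega)
    have tb : ¬ G.Adj b t := fun a => by
      obtain ⟨w, w1, w2⟩ := mxB t t1 fun p => t2.1 (mem_erase.2 ⟨t2.2.2, p⟩)
      by_cases e : w = b
      · exact w2 (e ▸ a.symm)
      · exact w2 (al w (mem_erase.2 ⟨e, w1⟩))
    have tz : ¬ G.Adj z t := fun a => by
      obtain ⟨x, x1, x2, x3⟩ := er b
      have := M _ (clq_ins (clq_ins cY fun w hw => (j w hw).1.symm) (z := t) fun w hw =>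
        (mem_insert.1 hw).elim (· ▸ a.symm) (al w)) (fun w hw => (mem_insert.1 hw).elim (· ▸ t1)
          fun p => (mem_insert.1 p).elim (· ▸ z1) (oY w))
        ⟨x, mem_insert_of_mem (mem_insert_of_mem (mem_erase.2 ⟨x3, x1⟩)), x2⟩
      rw [card_insert_of_notMem (by rw [mem_insert, not_or]; exact ⟨t2.2.1, t2.1⟩),
        card_insert_of_notMem fun p => z2 (mem_of_mem_erase p)] at this
      omega
    exact hs.k6e3 cY oY (by omega) ⟨z1, b2 b m1, t1⟩
      (fun w hw => ⟨(j w hw).1, (j w hw).2, (al w hw).symm⟩) zb (Ne.symm t2.2.1) (Ne.symm t2.2.2)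
      m2 tz tb
  · by_cases e : x = b
    · simp [e]
    · exact mem_union_left _ (mem_erase.2 ⟨e, hx⟩)

theorem clu_uniq (hs : AT.Stat G D Dm) (hd : ∀ v, v ∉ Dm → (nb G v).card ≤ D + 1) (hD : 14 ≤ D)
    (h : Clu G D Dm Y W) (h' : Clu G D Dm Y' W') {v : V} (a : v ∈ Y ∪ W) (b : v ∈ Y' ∪ W') :
    Y = Y' ∧ W = W' := by
  obtain ⟨B, b1, b2, b3, -, b5, b6, -⟩ := exB h a
  obtain ⟨B', c1, c2, c3, -, c5, c6, -⟩ := exB h' b
  have l := meet b1 c1 b2 c2 (hd v (h.real v a))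
  obtain ⟨x, x1, x2⟩ := exists_mem_notMem_of_card_lt_card (s := (B \ Y) ∪ (B' \ Y')) (t := B ∩ B')
    (by
      have := card_union_le (B \ Y) (B' \ Y')
      have := card_sdiff_add_card_eq_card b3
      have := card_sdiff_add_card_eq_card c3
      omega)
  simp only [mem_inter, mem_union, mem_sdiff, not_or, not_and, not_not] at x1 x2
  have s1 := sub hs hd hD h h' (x2.1 x1.1) (x2.2 x1.2)
  have s2 := sub hs hd hD h' h (x2.2 x1.2) (x2.1 x1.1)
  obtain rfl : W = W' := Subset.antisymm (subW h h' s2) (subW h' h s1)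
  exact ⟨Subset.antisymm
    (fun y hy => (mem_union.1 (s2 (mem_union_left _ hy))).resolve_right
      fun p => (h.join y hy y p).ne rfl)
    fun y hy => (mem_union.1 (s1 (mem_union_left _ hy))).resolve_right
      fun p => (h'.join y hy y p).ne rfl, rfl⟩

end Pool.Agent.Lib.MP_12eaff_co.Frz.FB
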