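import Pool.Agent.Lib.MP_12eaff_co.Frz.FB.Pool
import Pool.Agent.Lib.MP_12eaff_co.Frz.F.Ifc
import Pool.Agent.Lib.MP_12eaff_co.Frz.F.Glue

set_option autoImplicit false
set_option linter.unusedSectionVars false

namespace Pool.Agent.Lib.MP_12eaff_co.Frz.FB

open Finset Pool.Agent.Lib.MP_12eaff_co.Frz.BK Pool.Agent.Lib.MP_12eaff_co.Frz.Acc2
open scoped Classical

variable {D : ℕ}

theorem late_sub {V : Type} [Fintype V] {G : SimpleGraph V} {T : Tr G D} (h : IsC T)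
    (q : Finset V × Finset V → V) :
    T.Late mbC (clu G D T.Dm) q (T.El (elC G D T.Dm)) ⊆ Late T := fun e p => by
  obtain ⟨-, -, p2, p3, p4, z, -, n⟩ := mem_filter.1 p
  simp only [Tr.El, elC, not_forall] at n
  obtain ⟨Y, W, c, m, -⟩ := n
  have k : ∃ p : Finset V × Finset V, Clu G D T.Dm p.1 p.2 ∧ e ∈ p.1 ∪ p.2 := ⟨(Y, W), c, m⟩
  rw [clu, dif_pos k] at p3 p4
  obtain ⟨q', f⟩ := h.fam _ _ k.choose_spec.1 _ p3 p4
  exact mem_filter.2 ⟨mem_univ _, p2, _, _, q', f, k.choose_spec.2⟩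

theorem uthm (hD : 21 ≤ D) : UThm D 1 6 := fun V _ G U P h hU => by
  refine ⟨_, mbC, clu (PG G U P) D (PD U P), elC (PG G U P) D (PD U P), fun _ _ => 0,
    mbC_clu _, fun T q t1 t2 t3 t4 => ?_⟩
  rw [← t2] at t4 ⊢
  have c : IsC T := isC_of_own t1 t3 (t2 ▸ stat_pg h) (t2 ▸ nok_pg h (by omega) hU) (by omega) t4
  have k := c.iface (by omega) (c.ledger hD)
  unfold Tr.Gain Tr.Cost
  rw [one_mul]
  refine (Nat.add_le_add_left (sum_le_sum_of_subset (late_sub c q)) _).trans_lt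
    (lt_of_eq_of_lt ?_ k)
  refine congrArg (· + _) (sum_congr rfl fun e _ => ?_)
  unfold Tr.gain
  by_cases a : T.Clm e
  · rw [if_pos a, if_pos (show ∃ x ∈ T.ch e, (T.ch x).Nonempty from a)]
  · rw [if_neg a, if_neg (show ¬ ∃ x ∈ T.ch e, (T.ch x).Nonempty from a)]

end Pool.Agent.Lib.MP_12eaff_co.Frz.FB
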