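import Pool.Agent.Lib.MP_12eaff_co.Frz.FB.TW

set_option autoImplicit false
set_option linter.unusedSectionVars false

namespace Pool.Agent.Lib.MP_12eaff_co.Frz.FB

open Finset Pool.Agent.Lib.MP_12eaff_co.Frz.BK Pool.Agent.Lib.MP_12eaff_co.Frz.Acc2
open scoped Classical

variable {V : Type} [Fintype V] {G : SimpleGraph V} {D : ℕ}

theorem mbC_clu (Dm : Finset V) (u : V) : mbC (clu G D Dm u) u := by
  unfold clu
  split_ifs with h
  exacts [h.choose_spec.2, by simp [mbC]]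

theorem isC_of_own {T : Tr G D} (h : IsB T) (s2 : T.S2 = ∅) (st : AT.Stat G D T.Dm)
    (nk : NoK G D T.Dm) (hD : 14 ≤ D) {q : Finset V × Finset V → V} {pf : V → V → ℕ}
    (o : Own T mbC (clu G D T.Dm) q (fun a v u =>
      elC G D T.Dm (a, T.p a, T.col a) (T.d a) (v, T.p v, T.col v) (T.d v) u) pf) : IsC T := by
  have hd : ∀ v, v ∉ T.Dm → (nb G v).card ≤ D + 1 := fun v hv => by
    simpa only [s2, sdiff_empty] using h.deg v hv
  have cl : ∀ {Y W u}, Clu G D T.Dm Y W → u ∈ Y ∪ W → clu G D T.Dm u = (Y, W) := by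
    intro Y W u c m
    have e : ∃ p : Finset V × Finset V, Clu G D T.Dm p.1 p.2 ∧ u ∈ p.1 ∪ p.2 := ⟨(Y, W), c, m⟩
    rw [clu, dif_pos e]
    exact Prod.ext_iff.2 (clu_uniq st hd hD e.choose_spec.1 c e.choose_spec.2 m)
  have fm : ∀ Y W, Clu G D T.Dm Y W → ∀ x ∈ T.R, x ∈ Y ∪ W → Fam T Y W (q (Y, W)) := by
    intro Y W c x hx m
    obtain ⟨a1, a2, _⟩ := o.own (Y, W) x hx m
    have al : ∀ u ∈ Y, Pr T (q (Y, W)) u → u ∈ T.O (q (Y, W)) := fun u hu p => by
      have k := mem_union_left W hu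
      refine (o.reach _ a1 u (c.real u k) p).2.2.2 fun Y' W' c' k' => ?_
      rw [cl c k, ← (clu_uniq st hd hD c c' k k').1]
      exact ⟨hu, p, .inl rfl⟩
    refine ⟨c, a1, a2, fun hr k => ?_, fun u hu k ne => ?_, al⟩
    · exact (T.d_p _ a1 hr).not_ge (o.own (Y, W) _ (T.p_mem _ a1 hr) k).2.2
    · have hr : u ≠ T.r := by
        rintro rfl
        have := (o.own (Y, W) _ hu k).2.2
        have := T.d_p _ a1 ne.symm
        have := T.d_r
        omega
      have e := o.el u hu hr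
      rw [cl c k] at e
      obtain ⟨b1, b2, b3⟩ := e.resolve_left ne Y W c k
      exact ⟨b1, al u b1 b2, hr, b3⟩
  refine ⟨h, s2, st, nk, fun Y W c x hx m => ⟨_, fm Y W c x hx m⟩, fun v hv u hu md => ?_⟩
  obtain ⟨p, no, _⟩ := IsB.mem_Dr.1 hu
  obtain ⟨a1, a2, a3, a4⟩ := o.reach v hv u md p
  have ne := mt a4 no
  simp only [elC, not_forall] at ne
  obtain ⟨Y, W, c, m, ne⟩ := ne
  rw [cl c m] at a1 a2 a3 ne
  have f := fm Y W c _ a1 a2
  refine ⟨fun k => no ((o.O_iff v hv u).2 ⟨p, k, ?_⟩), Y, W, _, f, m⟩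
  by_cases e : u = q (Y, W)
  · exact e ▸ a3
  · obtain ⟨b1, b2, _⟩ := f.vis u k m e
    have := (T.clo _ a1 u b2).2
    have := (o.own (Y, W) v hv (by_contra fun z => ne ⟨b1, h.pr_O a1 b2, .inr z⟩)).2.2
    omega

namespace Fam
variable {T : Tr G D} {Y W : Finset V} {q u : V}

theorem adjq (f : Fam T Y W q) (hu : u ∈ Y) (ne : q ≠ u) : G.Adj q u :=
  (mem_union.1 f.mem).elim (fun k => f.cl.clq q k u hu ne) fun k => (f.cl.join u hu q k).symm

theorem clq (f : Fam T Y W q) : IsClq G (insert q Y) := fun a ha b hb ne => by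
  rcases mem_insert.1 ha with e | ha <;> rcases mem_insert.1 hb with e' | hb
  exacts [absurd (e.trans e'.symm) ne, e ▸ f.adjq hb (e ▸ ne), e' ▸ (f.adjq ha (e' ▸ ne.symm)).symm,
    f.cl.clq a ha b hb ne]

/-- An unvisited core vertex is hidden at the owner. -/
theorem late_Bd (f : Fam T Y W q) (hu : u ∈ Y \ T.R) : u ∈ T.Bd q := by
  obtain ⟨a, b⟩ := mem_sdiff.1 hu
  have j := f.adjq a fun e => b (e ▸ f.hq)
  refine (IsB.mem_Bd' f.hq (f.cl.real u (mem_union_left W a))).2 ⟨j, fun e =>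
    b (T.clo q f.hq u (f.all u a ⟨j, fun z => b ?_, e⟩)).1⟩
  by_cases hr : q = T.r
  · rw [z, hr, T.p_r]; exact T.r_mem
  · exact z ▸ T.p_mem q f.hq hr

/-- A core owner hides a twin. -/
theorem twq (h : IsC T) (f : Fam T Y W q) (hD : 14 ≤ D) (m : q ∈ Y) (n : W ≠ ∅) :
    ∃ a ∈ W, a ∈ T.Bd q := by
  obtain ⟨a, b, ab, nb, rfl⟩ := f.cl.tw.resolve_left n
  have c := f.cl.big
  rw [if_neg n] at c
  rcases h.tw f.hq f.cl.clq m (by omega) (fun v k => f.cl.real v (by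
    simp only [mem_insert, mem_union, mem_singleton] at k ⊢; tauto)) ab nb
    (fun w k => ⟨f.cl.join w k a (by simp), f.cl.join w k b (by simp)⟩) with k | k
  exacts [⟨a, by simp, k⟩, ⟨b, by simp, k⟩]

theorem card_W (f : Fam T Y W q) : W.card ≤ 2 := by
  rcases f.cl.tw with e | ⟨a, b, _, _, e⟩ <;> rw [e]
  exacts [by simp, card_le_two]

theorem late (h : IsC T) (f : Fam T Y W q) (hD : 14 ≤ D) :
    ((Y ∪ W) \ T.R).card ≤ if W = ∅ then 1 else 2 := by
  have c1 : (Y \ T.R).card ≤ 1 := card_le_one.2 fun a p b k => by_contra fun ne =>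
    h.Bd_nadj f.hq (f.late_Bd p) (f.late_Bd k)
      (f.cl.clq a (mem_sdiff.1 p).1 b (mem_sdiff.1 k).1 ne)
  have c2 := f.card_W
  rw [union_sdiff_distrib]
  refine (card_union_le _ _).trans ?_
  split_ifs with n
  · simpa [n] using c1
  rcases mem_union.1 f.mem with m | m
  · obtain ⟨a, a1, a2⟩ := f.twq h hD m n
    have e : Y \ T.R = ∅ := eq_empty_of_forall_notMem fun u k =>
      h.Bd_nadj f.hq (f.late_Bd k) a2 (f.cl.join u (mem_sdiff.1 k).1 a a1)
    rw [e, card_empty, zero_add]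
    exact (card_le_card sdiff_subset).trans c2
  · have := card_lt_card ((ssubset_iff_of_subset (sdiff_subset (s := W) (t := T.R))).2
      ⟨q, m, fun k => (mem_sdiff.1 k).2 f.hq⟩)
    omega

theorem drq (h : IsC T) (f : Fam T Y W q) (hD : 14 ≤ D) :
    (T.Dr q ∩ (Y ∪ W)).card ≤ if W ≠ ∅ ∧ q ∈ Y then 1 else 0 := by
  have s : ∀ u ∈ T.Dr q ∩ (Y ∪ W), u ∈ W ∧ Pr T q u := fun u k => by
    obtain ⟨p, no, _⟩ := IsB.mem_Dr.1 (mem_inter.1 k).1
    exact ⟨(mem_union.1 (mem_inter.1 k).2).resolve_left fun z => no (f.all u z p), p⟩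
  split_ifs with n
  · obtain ⟨a, a1, a2⟩ := f.twq h hD n.2 n.1
    have := card_lt_card ((ssubset_iff_of_subset fun u k => (s u k).1).2
      ⟨a, a1, fun k => (IsB.mem_Bd.1 a2).2.1 (s a k).2.2.2⟩)
    have := f.card_W
    omega
  · refine (card_eq_zero.2 (eq_empty_of_forall_notMem fun u k => ?_)).le
    obtain ⟨m, p, _⟩ := s u k
    have n' := ne_empty_of_mem m
    have m' := (mem_union.1 f.mem).resolve_left fun z => n ⟨n', z⟩
    obtain ⟨a, b, _, nb, rfl⟩ := f.cl.tw.resolve_left n'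
    simp only [mem_insert, mem_singleton] at m m'
    rcases m with rfl | rfl <;> rcases m' with rfl | rfl
    exacts [p.ne rfl, nb p.symm, nb p, p.ne rfl]

/-- Two owners of one cluster have no child in it. -/
theorem ch_two {q' : V} (f : Fam T Y W q) (f' : Fam T Y W q') (ne : q ≠ q') :
    T.ch q ∩ (Y ∪ W) = ∅ := eq_empty_of_forall_notMem fun u k => by
  obtain ⟨a, b, c⟩ := T.mem_ch.1 (mem_inter.1 k).1
  by_cases e : u = q'
  · exact f'.pq (e ▸ b) (e ▸ c ▸ f.mem)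
  · exact (f'.vis u a (mem_inter.1 k).2 e).2.2.2.elim (fun z => ne (c.symm.trans z))
      fun z => z (c ▸ f.mem)

theorem uniq (h : IsC T) (hD : 14 ≤ D) {Y' W' : Finset V} {q' : V} (f : Fam T Y W q)
    (f' : Fam T Y' W' q') (a : u ∈ Y ∪ W) (b : u ∈ Y' ∪ W') :
    Y = Y' ∧ W = W' ∧ T.ch q ∩ (Y ∪ W) = T.ch q' ∩ (Y ∪ W) := by
  obtain ⟨rfl, rfl⟩ := clu_uniq h.stat (fun _ => h.deg') hD f.cl f'.cl a b
  refine ⟨rfl, rfl, ?_⟩
  by_cases e : q = q'
  · rw [e]
  · rw [f.ch_two f' e, f'.ch_two f (Ne.symm e)]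

/-- Neighbours of a member outside the cluster. -/
theorem out_le (h : IsC T) (f : Fam T Y W q) (m : u ∈ Y ∪ W) :
    (nb G u \ (Y ∪ W)).card + Y.card ≤ D + if W = ∅ then 2 else 1 := by
  have d := h.deg' (f.cl.real u m)
  rw [← card_sdiff_add_card_inter _ (Y ∪ W)] at d
  rcases mem_union.1 m with k | k
  · have s : Y.erase u ∪ W ⊆ nb G u ∩ (Y ∪ W) := fun w z => mem_inter.2
      ⟨mem_nb.2 ((mem_union.1 z).elim (fun z => f.cl.clq u k w (mem_erase.1 z).2
        (mem_erase.1 z).1.symm) (f.cl.join u k w)), union_subset_union_left (erase_subset _ _) z⟩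
    have c := card_le_card s
    rw [card_union_of_disjoint (disjoint_left.2 fun w a b =>
      (f.cl.join w (mem_erase.1 a).2 w b).ne rfl)] at c
    have := card_erase_add_one k
    split_ifs with n
    · omega
    · have := card_pos.2 (nonempty_iff_ne_empty.2 n)
      omega
  · have := card_le_card (show Y ⊆ nb G u ∩ (Y ∪ W) from fun w z =>
      mem_inter.2 ⟨mem_nb.2 (f.cl.join w z u k).symm, mem_union_left W z⟩)
    rw [if_neg (ne_empty_of_mem k)]
    omega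

/-- foreign drops and ports of late vertices -/
theorem delta (h : IsC T) (f : Fam T Y W q) :
    ∑ v ∈ T.R \ (Y ∪ W), (T.Dr v ∩ (Y ∪ W)).card + ∑ e ∈ (Y ∪ W) \ T.R, (nb G e ∩ T.Dm).card ≤
      ((Y ∪ W) \ T.R).card * (D + (if W = ∅ then 2 else 1) - Y.card) := by
  have a : ∑ v ∈ T.R \ (Y ∪ W), (T.Dr v ∩ (Y ∪ W)).card ≤
      ∑ v ∈ T.R \ (Y ∪ W), (((Y ∪ W) \ T.R).bipartiteAbove G.Adj v).card :=
    sum_le_sum fun v hv => card_le_card fun u k => by
      obtain ⟨a, b⟩ := mem_inter.1 k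
      exact (mem_bipartiteAbove _).2 ⟨mem_sdiff.2 ⟨b, (h.drop v (mem_sdiff.1 hv).1 u a
        (f.cl.real u b)).1⟩, (IsB.mem_Dr.1 a).1.1⟩
  rw [sum_card_bipartiteAbove_eq_sum_card_bipartiteBelow] at a
  refine (Nat.add_le_add_right a _).trans ?_
  rw [← sum_add_distrib]
  refine sum_le_card_nsmul _ _ _ fun u hu => ?_
  have := f.out_le h (mem_sdiff.1 hu).1
  have c := card_le_card (show (T.R \ (Y ∪ W)).bipartiteBelow G.Adj u ∪ nb G u ∩ T.Dm ⊆
      nb G u \ (Y ∪ W) from fun w k => (mem_union.1 k).elim (fun k => mem_sdiff.2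
    ⟨mem_nb.2 ((mem_bipartiteBelow _).1 k).2.symm, (mem_sdiff.1 ((mem_bipartiteBelow _).1 k).1).2⟩)
    fun k => mem_sdiff.2 ⟨(mem_inter.1 k).1, fun z => f.cl.real w z (mem_inter.1 k).2⟩)
  rw [card_union_of_disjoint (disjoint_left.2 fun w a b =>
    T.real w (mem_sdiff.1 ((mem_bipartiteBelow _).1 a).1).1 (mem_inter.1 b).2)] at c
  omega

end Fam

end Pool.Agent.Lib.MP_12eaff_co.Frz.FB
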