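import Pool.Agent.Lib.MP_12eaff_co.Frz.FB.Ifc2
import Pool.Agent.Lib.MP_12eaff_co.Frz.FB.Own
import Pool.Agent.Lib.MP_12eaff_co.Frz.FB.Led

set_option autoImplicit false
set_option linter.unusedSectionVars false

namespace Pool.Agent.Lib.MP_12eaff_co.Frz.FB

open Finset Pool.Agent.Lib.MP_12eaff_co.Frz.BK Pool.Agent.Lib.MP_12eaff_co.Frz.Acc2
open scoped Classical

variable {V : Type} [Fintype V] {G : SimpleGraph V} {D : ℕ}

open Tr IsA

theorem jm_W {T : Tr G D} {y v : V} (k : v ∈ jm T y) : v ∈ W T y ∧ v ∈ T.O y :=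
  ⟨WQ_sub (mem_inter.1 k).1, (mem_inter.1 k).2⟩

theorem card_out {y : V} {H A : Finset V} (hA : A ⊆ H) (k : ∀ a ∈ A, G.Adj y a) :
    (nb G y \ H).card + A.card ≤ (nb G y).card := by
  have := card_sdiff_add_card_inter (nb G y) H
  have := card_le_card (show A ⊆ nb G y ∩ H from fun a p => mem_inter.2 ⟨mem_nb.2 (k a p), hA p⟩)
  omega

namespace IsC

variable {T : Tr G D} {x y : V} {K H : Finset V}

theorem ns (h : IsC T) (x y : V) : T.NS x y := fun m k => by simp [h.s2] at k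

theorem Ch_adj (h : IsC T) (hy : y ∈ T.R) {v : V} (k : v ∈ Ch T y) : G.Adj y v :=
  (T.O_adj v (h.Ch_in hy k).1 y (T.mem_NT.1 (h.Ch_in hy k).2).1).symm

theorem Ch_pb (h : IsC T) (hy : y ∈ T.R) (H : Finset V) :
    Disjoint (Ch T y \ H) (T.Bd y ∩ T.Dm) := disjoint_left.2 fun v p k =>
  T.real v (h.Ch_in hy (mem_sdiff.1 p).1).1 (mem_inter.1 k).2

/-- Charged neighbours outside `H` are not the parent. -/
theorem Ch_out (h : IsC T) (hy : y ∈ T.R) (hr : y ≠ T.r) (o : y ∈ T.O (T.p y)) (n : T.p y ∉ H)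
    (r : ∀ v ∈ H, v ∉ T.Dm) : (Ch T y \ H).card + pb T y + 1 ≤ (nb G y \ H).card := by
  rw [← card_erase_add_one (mem_sdiff.2 ⟨mem_nb.2 (h.adj_par hy hr o).symm, n⟩), pb,
    ← card_union_of_disjoint (h.Ch_pb hy H)]
  refine Nat.succ_le_succ (card_le_card (union_subset (fun v k => ?_) fun v k => ?_))
  · obtain ⟨k1, k2⟩ := mem_sdiff.1 k
    exact mem_erase.2 ⟨fun e => (T.mem_NT.1 (h.Ch_in hy k1).2).2 (T.mem_ch.2 ⟨hy, hr, e.symm⟩),
      mem_sdiff.2 ⟨mem_nb.2 (h.Ch_adj hy k1), k2⟩⟩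
  · obtain ⟨k1, k2⟩ := mem_inter.1 k
    exact mem_erase.2 ⟨fun e => T.real _ (T.p_mem y hy hr) (e ▸ k2),
      mem_sdiff.2 ⟨mem_nb.2 (IsB.mem_Bd.1 k1).1, fun z => r v z k2⟩⟩

/-- Charged neighbours inside a clique whose parent misses two members. -/
theorem Ch_clq (h : IsC T) (hy : y ∈ T.R) (hr : y ≠ T.r) (o : y ∈ T.O (T.p y)) (hK : IsClq G K)
    (r : ∀ v ∈ K, v ∉ T.Dm) (m : y ∈ K) (n : T.p y ∉ K)
    (f : ∃ w ∈ K, ∃ w' ∈ K, w ≠ w' ∧ ¬ G.Adj (T.p y) w ∧ ¬ G.Adj (T.p y) w') :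
    (Ch T y ∩ K).card + i2 T y ≤ 4 + (T.Bd y ∩ T.R ∩ K).card := by
  have hq := T.p_mem y hy hr
  obtain ⟨f1, f2⟩ := h.far2 hq hK r n f
  have a := h.adj_par hy hr o
  have t := card_tE (Ct := Cm T) (Use := O0 T) hy
  have key : ∀ A : Finset V, y ∈ A → (∀ v ∈ K, v ∈ T.O (T.p y) → v ∈ A) →
      (T.ch y = ∅ → ∀ v ∈ K, G.Adj (T.p y) v → v ∈ A) →
      (Ch T y ∩ K).card + 1 ≤ 1 + A.card + (T.Bd y ∩ T.R ∩ K).card := fun A p0 p1 p2 => by
    have c := card_erase_add_one p0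
    have : (Ch T y ∩ K).card ≤ (T.tE (Cm T) (O0 T) y ∪ A.erase y ∪
        (T.Bd y ∩ T.R ∩ K)).card := card_le_card fun v k => by
      obtain ⟨k1, k2⟩ := mem_inter.1 k
      have ne := (h.Ch_adj hy k1).ne.symm
      simp only [mem_union, mem_erase, mem_inter]
      rcases mem_Ch.1 k1 with z | z | z | z
      exacts [.inl (.inl z), .inl (.inr ⟨ne, p1 v k2 (mem_W.1 (WQ_sub z)).2.2.1⟩),
        .inr ⟨⟨h.nE_Bd hy z, (h.Ch_in hy k1).1⟩, k2⟩,
        .inl (.inr ⟨ne, p2 z.1 v k2 (T.mem_H.1 (piQ_sub z.2)).1⟩)]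
    have := card_union_le (T.tE (Cm T) (O0 T) y ∪ A.erase y) (T.Bd y ∩ T.R ∩ K)
    have := card_union_le (T.tE (Cm T) (O0 T) y) (A.erase y)
    omega
  unfold i2
  split_ifs with e
  · have := key (K.filter (G.Adj (T.p y))) (mem_filter.2 ⟨m, a⟩)
      (fun v p k => mem_filter.2 ⟨p, T.O_adj _ hq v k⟩) fun _ v p k => mem_filter.2 ⟨p, k⟩
    omega
  · have := key (K.filter fun u => G.Adj (T.p y) u ∧ Uq G (T.col (T.p y)) (T.p y) u)
      (mem_filter.2 ⟨m, a, h.uq_O hq o⟩)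
      (fun v p k => mem_filter.2 ⟨p, T.O_adj _ hq v k, h.uq_O hq k⟩) fun k => absurd k e
    omega

theorem Bd_clq (h : IsC T) (hy : y ∈ T.R) (hK : IsClq G K) : (T.Bd y ∩ T.R ∩ K).card ≤ 1 :=
  card_le_one.2 fun a p b q => by_contra fun n => h.Bd_nadj hy (mem_inter.1 (mem_inter.1 p).1).1
    (mem_inter.1 (mem_inter.1 q).1).1 (hK a (mem_inter.1 p).2 b (mem_inter.1 q).2 n)

/-- The mutual tails of a child `x` of a member `y` of a clique that `x` misses twice. -/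
theorem jm_far (h : IsC T) (hx : x ∈ T.ch y) (o : x ∈ T.O y) (hK : IsClq G K)
    (r : ∀ v ∈ K, v ∉ T.Dm) (m : y ∈ K) (n : x ∉ K) (nH : x ∉ H) (s : ∀ v ∈ T.R, v ∈ H → v ∈ K)
    (f : ∃ w ∈ K, ∃ w' ∈ K, w ≠ w' ∧ ¬ G.Adj x w ∧ ¬ G.Adj x w') :
    (jm T x).card ≤ (nb G y \ H).card := by
  obtain ⟨p1, p2, rfl⟩ := T.mem_ch.1 hx
  have hy := T.p_mem x p1 p2
  have a := h.adj_par p1 p2 o
  have f1 := (h.far2 p1 hK r n f).1
  rw [← card_erase_add_one (mem_filter.2 ⟨m, a.symm, h.uq_par p1 p2 o⟩ :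
    T.p x ∈ K.filter fun u => G.Adj x u ∧ Uq G (T.col x) x u)] at f1
  have c1 : (jm T x ∩ H).card ≤ ((K.filter fun u => G.Adj x u ∧ Uq G (T.col x) x u).erase
      (T.p x)).card := card_le_card fun v k =>
    have p := jm_W (mem_inter.1 k).1
    mem_erase.2 ⟨O_ne_p p1 p.2, mem_filter.2 ⟨s v (W_mem p1 p.1) (mem_inter.1 k).2,
      T.O_adj x p1 v p.2, h.uq_O p1 p.2⟩⟩
  have c2 : (jm T x \ H).card ≤ ((nb G (T.p x) \ H).erase x).card := card_le_card fun v k =>
    have p := mem_W.1 (jm_W (mem_sdiff.1 k).1).1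
    mem_erase.2 ⟨p.1.ne.symm, mem_sdiff.2 ⟨mem_nb.2 (T.O_adj _ hy v p.2.2.1), (mem_sdiff.1 k).2⟩⟩
  have := card_erase_add_one (mem_sdiff.2 ⟨mem_nb.2 a, nH⟩ : x ∈ nb G (T.p x) \ H)
  have := card_sdiff_add_card_inter (jm T x) H
  omega

end IsC

namespace Fam

variable {T : Tr G D} {Y W : Finset V} {q y r x : V}

theorem sub (f : Fam T Y W q) {v : V} (hv : v ∈ T.R) (m : v ∈ Y ∪ W) : v ∈ insert q Y := by
  by_cases e : v = q
  exacts [e ▸ mem_insert_self _ _, mem_insert_of_mem (f.vis v hv m e).1]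

theorem kreal (f : Fam T Y W q) : ∀ v ∈ insert q Y, v ∉ T.Dm := fun v k =>
  (mem_insert.1 k).elim (fun e => e ▸ T.real q f.hq) fun k => f.cl.real v (mem_union_left _ k)

theorem kout (f : Fam T Y W q) {z : V} (n : z ∉ Y ∪ W) : z ∉ insert q Y := fun k =>
  n ((mem_insert.1 k).elim (fun e => e ▸ f.mem) (mem_union_left _))

theorem kfar (f : Fam T Y W q) {z : V} (hz : z ∈ T.R) (n : z ∉ Y ∪ W) :
    ∃ w ∈ insert q Y, ∃ w' ∈ insert q Y, w ≠ w' ∧ ¬ G.Adj z w ∧ ¬ G.Adj z w' :=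
  let ⟨w, a, w', b, c⟩ := f.cl.far z (T.real z hz) n
  ⟨w, mem_insert_of_mem a, w', mem_insert_of_mem b, c⟩

theorem disj (f : Fam T Y W q) : Disjoint Y W :=
  disjoint_left.2 fun a p k => (f.cl.join a p a k).ne rfl

theorem cardW (f : Fam T Y W q) : W.card = if W = ∅ then 0 else 2 := by
  rcases f.cl.tw with e | ⟨a, b, ab, -, e⟩
  · simp [e]
  · rw [e, card_pair ab, if_neg (insert_ne_empty _ _)]

theorem chq (f : Fam T Y W q) (hy : y ∈ T.ch q) (m : y ∈ Y ∪ W) : y ∈ Y ∧ y ∈ T.O q :=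
  have k := f.vis y (T.mem_ch.1 hy).1 m fun e => by
    have := d_ch hy
    rw [e] at this
    omega
  ⟨k.1, k.2.1⟩

theorem Dr_late (h : IsC T) (f : Fam T Y W q) (hy : y ∈ T.R) :
    T.Dr y ∩ (Y ∪ W) ⊆ (Y ∪ W) \ T.R := fun u k =>
  mem_sdiff.2 ⟨(mem_inter.1 k).2,
    (h.drop y hy u (mem_inter.1 k).1 (f.cl.real u (mem_inter.1 k).2)).1⟩

theorem Ch_K (h : IsC T) (f : Fam T Y W q) (hy : y ∈ T.R) :
    (Ch T y).card ≤ (Ch T y \ (Y ∪ W)).card + (Ch T y ∩ insert q Y).card := by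
  have := card_sdiff_add_card_inter (Ch T y) (Y ∪ W)
  have : (Ch T y ∩ (Y ∪ W)).card ≤ (Ch T y ∩ insert q Y).card := card_le_card fun v k =>
    mem_inter.2 ⟨(mem_inter.1 k).1, f.sub (h.Ch_in hy (mem_inter.1 k).1).1 (mem_inter.1 k).2⟩
  omega

theorem hid_tw (h : IsC T) (f : Fam T Y W q) (hD : 14 ≤ D) (hy : y ∈ T.R) (m : y ∈ Y)
    (w0 : W ≠ ∅) : ∃ a ∈ W, a ∈ T.Bd y := by
  obtain ⟨a, b, ab, n, e⟩ := f.cl.tw.resolve_left w0
  have big := f.cl.big
  rw [if_neg w0] at big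
  have aW : a ∈ W := by simp [e]
  have bW : b ∈ W := by simp [e]
  exact (h.tw hy f.cl.clq m (by omega) (fun v p => f.cl.real v (by
      rcases mem_insert.1 p with z | p
      · exact z ▸ mem_union_right _ aW
      exact (mem_insert.1 p).elim (fun z => z ▸ mem_union_right _ bW) (mem_union_left _))) ab n
    fun w p => ⟨f.cl.join w p a aW, f.cl.join w p b bW⟩).elim (fun k => ⟨a, aW, k⟩)
    fun k => ⟨b, bW, k⟩

/-- children of the owner -/
theorem mem_in (h : IsC T) (f : Fam T Y W q) (hD : 14 ≤ D) (hy : y ∈ T.ch q) (m : y ∈ Y ∪ W) :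
    (Ch T y ∩ (Y ∪ W)).card + ((T.ch q ∩ (Y ∪ W)).erase y \ Ch T y).card +
      (T.Dr y ∩ (Y ∪ W)).card + (if W = ∅ then 2 else 1) ≤ Y.card := by
  obtain ⟨yY, yo⟩ := f.chq hy m
  obtain ⟨p1, p2, rfl⟩ := T.mem_ch.1 hy
  have ne := p_ne p1 p2
  have key : ∀ X : Finset V, X ⊆ Y ∪ W → (∀ a ∈ X, a = y ∨ a = T.p y ∨ a ∉ Y ∧ a ∈ T.Bd y) →
      (Ch T y ∩ (Y ∪ W)).card + ((T.ch (T.p y) ∩ (Y ∪ W)).erase y \ Ch T y).card +
      (T.Dr y ∩ (Y ∪ W)).card + X.card ≤ (Y ∪ W).card := fun X s k => by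
    have A : ∀ v ∈ Ch T y ∩ (Y ∪ W), v ∈ T.R ∧ v ∉ X := fun v p => by
      obtain ⟨a, b⟩ := h.Ch_in p1 (mem_inter.1 p).1
      have vq : v ≠ T.p y := fun e => (T.mem_NT.1 b).2 (e ▸ hy)
      exact ⟨a, fun z => (k v z).elim (h.Ch_adj p1 (mem_inter.1 p).1).ne.symm fun z => z.elim vq
        fun z => z.1 (f.vis v a (mem_inter.1 p).2 vq).1⟩
    have B : ∀ v ∈ (T.ch (T.p y) ∩ (Y ∪ W)).erase y \ Ch T y, v ∈ T.R ∧ v ∈ Y ∪ W ∧ v ∉ X :=
      fun v p => by
        obtain ⟨a, b⟩ := mem_erase.1 (mem_sdiff.1 p).1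
        obtain ⟨b1, b2⟩ := mem_inter.1 b
        refine ⟨(T.mem_ch.1 b1).1, b2, fun z => (k v z).elim a fun z => z.elim (fun e => ?_)
          fun z => z.1 (f.chq b1 b2).1⟩
        have := d_ch b1
        rw [e] at this
        omega
    have C : ∀ v ∈ T.Dr y ∩ (Y ∪ W), v ∉ T.R ∧ v ∉ X := fun v p => by
      have a := (mem_sdiff.1 (f.Dr_late h p1 p)).2
      exact ⟨a, fun z => (k v z).elim (fun e => a (e ▸ p1)) fun z => z.elim
        (fun e => a (e ▸ f.hq)) fun z => (IsB.mem_Bd.1 z.2).2.1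
          (IsB.mem_Dr.1 (mem_inter.1 p).1).1.2.2⟩
    rw [← card_union_of_disjoint, ← card_union_of_disjoint, ← card_union_of_disjoint]
    · exact card_le_card (union_subset (union_subset (union_subset inter_subset_right
        fun v p => (B v p).2.1) inter_subset_right) s)
    · exact disjoint_left.2 fun v p => (mem_union.1 p).elim
        (fun p => (mem_union.1 p).elim (fun p => (A v p).2) fun p => (B v p).2.2) fun p => (C v p).2
    · exact disjoint_left.2 fun v p z => (C v z).1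
        ((mem_union.1 p).elim (fun p => (A v p).1) fun p => (B v p).1)
    · exact disjoint_left.2 fun v p z => (mem_sdiff.1 z).2 (mem_inter.1 p).1
  have cu := card_union_of_disjoint f.disj
  have cW := f.cardW
  by_cases e : W = ∅
  · have := key {y, T.p y} (by simp [insert_subset_iff, m, f.mem]) (by simp)
    rw [card_pair ne.symm] at this
    rw [if_pos e] at cW ⊢
    omega
  rw [if_neg e] at cW ⊢
  obtain ⟨a, aW, k⟩ := f.hid_tw h hD p1 yY e
  have aY : a ∉ Y := fun z => disjoint_left.1 f.disj z aW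
  have := key (insert a {y, T.p y}) (by simp [insert_subset_iff, m, f.mem, aW]) (by simp [aY, k])
  rw [card_insert_of_notMem (by
    simp only [mem_insert, mem_singleton, not_or]
    exact ⟨fun z => aY (z ▸ yY), fun z => (IsB.mem_Bd.1 k).2.1 (z ▸ h.uq_par p1 p2 yo)⟩),
    card_pair ne.symm] at this
  omega

theorem mem_out (h : IsC T) (f : Fam T Y W q) (m : y ∈ Y) :
    (nb G y \ (Y ∪ W)).card + Y.card + W.card ≤ D + 2 := by
  have := card_out (G := G) (y := y) (erase_subset y (Y ∪ W)) fun a p =>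
    (mem_union.1 (mem_erase.1 p).2).elim (fun k => f.cl.clq y m a k (mem_erase.1 p).1.symm)
      (f.cl.join y m a)
  have := card_erase_add_one (mem_union_left W m)
  have := card_union_of_disjoint f.disj
  have := h.deg' (f.cl.real y (mem_union_left _ m))
  omega

theorem mem_quiet (h : IsC T) (hy : y ∈ T.R) {H : Finset V} (n : ¬ Loud T H y) :
    (Ch T y \ H).card ≤ i2 T y ∧ (Ch T y \ H).card + pb T y ≤ 2 := by
  have k : ∀ v ∈ Ch T y \ H, v ∈ T.Bd y ∧ T.ch y ≠ ∅ := fun v p => by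
    obtain ⟨a, b⟩ := h.Ch_in hy (mem_sdiff.1 p).1
    exact h.Ch_below hy (mem_sdiff.1 p).1
      (by_contra fun z => n ⟨v, a, (mem_sdiff.1 p).2, (T.mem_NT.1 b).1, z⟩)
  refine ⟨?_, ?_⟩
  swap
  · rw [pb, ← card_union_of_disjoint (h.Ch_pb hy H)]
    exact (card_le_card (union_subset (fun v p => (k v p).1) inter_subset_left)).trans
      (h.card_Bd hy)
  unfold i2
  split_ifs with e
  · exact (card_eq_zero.2 (eq_empty_of_forall_notMem fun v p => (k v p).2 e)).le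
  · exact (card_le_card fun v p => (k v p).1).trans (h.card_Bd hy)

theorem path_one (q z : V) : ((T.ch q).filter fun r => T.Anc r z).card ≤ 1 :=
  card_le_one.2 fun a p b k => by
    obtain ⟨p1, p2⟩ := mem_filter.1 p
    obtain ⟨k1, k2⟩ := mem_filter.1 k
    have s := Anc.under p1 p2 (anc_ch k1) k2 fun e => by
      have := d_ch k1
      rw [← e] at this
      omega
    rcases s.cases' with e | ⟨-, e⟩
    · exact e
    · have := d_ch p1
      have := e.le
      rw [(T.mem_ch.1 k1).2.2] at this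
      omega

theorem cnt_exc {C A B E : Finset V} {P : V → Prop} [DecidablePred P] (hy : y ∈ C)
    (k : ∀ r ∈ C, r ≠ y → r ∉ A → r ∉ B → r ∉ E → P r) :
    C.card ≤ ((C.erase y).filter P).card + A.card + B.card + E.card + 1 := by
  have : (C.erase y).card ≤ ((C.erase y).filter P ∪ A ∪ B ∪ E).card := card_le_card fun r p => by
    have := k r (mem_erase.1 p).2 (mem_erase.1 p).1
    simp only [mem_union, mem_filter]
    tauto
  have := card_erase_add_one hy
  have := card_union_le ((C.erase y).filter P ∪ A ∪ B) E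
  have := card_union_le ((C.erase y).filter P ∪ A) B
  have := card_union_le ((C.erase y).filter P) A
  omega

theorem loud_cnt (h : IsC T) (f : Fam T Y W q) (hy : y ∈ T.ch q) (m : y ∈ Y ∪ W)
    (l : Loud T (Y ∪ W) y) : (T.ch q ∩ (Y ∪ W)).card ≤
      (((T.ch q ∩ (Y ∪ W)).erase y).filter fun r => r ∉ Ch T y ∨ y ∉ Ch T r).card + 4 := by
  obtain ⟨z, hz, zH, pz, ny⟩ := l
  obtain ⟨yY, yo⟩ := f.chq hy m
  have f2 := (h.far2 hz f.clq f.kreal (f.kout zH) (f.kfar hz zH)).2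
  rw [← card_erase_add_one (mem_filter.2 ⟨mem_insert_of_mem yY, T.O_adj z hz y pz⟩ :
    y ∈ (insert q Y).filter (G.Adj z))] at f2
  have := path_one (T := T) q z
  have := cnt_exc (P := fun r => r ∉ Ch T y ∨ y ∉ Ch T r) (mem_inter.2 ⟨hy, m⟩)
    (A := ((insert q Y).filter (G.Adj z)).erase y) (B := (T.ch q).filter fun r => T.Anc r z)
    (E := ∅) fun r k k1 a b _ =>
      have c := f.chq (mem_inter.1 k).1 (mem_inter.1 k).2
      h.shake hy (mem_inter.1 k).1 yo c.2 hz pz ny (fun e => b (mem_filter.2 ⟨(mem_inter.1 k).1, e⟩))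
        fun e => a (mem_erase.2 ⟨k1, mem_filter.2 ⟨mem_insert_of_mem c.1, e⟩⟩)
  rw [card_empty] at this
  omega

/-- entries -/
theorem entry (h : IsC T) (f : Fam T Y W q) (hD : 14 ≤ D) (hr : r ∈ T.R) (m : r ∈ Y ∪ W)
    (ne : r ≠ q) (np : T.p r ≠ q) :
    (Ch T r).card + i2 T r + pb T r + (T.Dr r ∩ (Y ∪ W)).card + Y.card ≤
      D + if W = ∅ then 7 else 6 := by
  obtain ⟨rY, -, rr, pH⟩ := f.vis r hr m ne
  have pH := pH.resolve_left np
  have l := (card_le_card (f.Dr_late h hr)).trans (f.late h hD)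
  have sm := f.cl.small
  have cW := f.cardW
  by_cases o : r ∈ T.O (T.p r)
  swap
  · have := (h.Ch_pass hr (.inr o)).2.1
    split_ifs at l sm ⊢ <;> omega
  have := h.Ch_out hr rr o pH f.cl.real
  have := f.mem_out h rY
  have := f.Ch_K h hr
  have := h.Ch_clq hr rr o f.clq f.kreal (mem_insert_of_mem rY) (f.kout pH)
    (f.kfar (T.p_mem r hr rr) pH)
  have := h.Bd_clq hr f.clq
  split_ifs at l cW ⊢ <;> omega

theorem owner (h : IsC T) (f : Fam T Y W q) (hD : 14 ≤ D) :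
    (Ch T q).card + i2 T q + pb T q + (T.Dr q ∩ (Y ∪ W)).card + Y.card ≤
      D + if W = ∅ then 5 else 4 := by
  have l := f.drq h hD
  have sm := f.cl.small
  have cW := f.cardW
  have hq := f.hq
  by_cases o : q = T.r ∨ q ∉ T.O (T.p q)
  · have := (h.Ch_pass hq o).2.1
    by_cases e : W = ∅
    · simp only [e, ne_eq, not_true, false_and, if_true, if_false] at l sm ⊢
      omega
    · split_ifs at l sm ⊢ <;> omega
  push Not at o
  have pH := f.pq o.1
  have := h.Ch_out hq o.1 o.2 pH f.cl.real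
  have := f.Ch_K h hq
  have := h.Ch_clq hq o.1 o.2 f.clq f.kreal (mem_insert_self _ _) (f.kout pH)
    (f.kfar (T.p_mem q hq o.1) pH)
  have : (T.Bd q ∩ T.R ∩ insert q Y).card = 0 := card_eq_zero.2
    (eq_empty_of_forall_notMem fun v k => by
      obtain ⟨k1, k2⟩ := mem_inter.1 k
      obtain ⟨a, b, -⟩ := IsB.mem_Bd.1 (mem_inter.1 k1).1
      exact b (h.uq_O hq (f.vis v (mem_inter.1 k1).2 (mem_union_left _
        ((mem_insert.1 k2).resolve_left a.ne.symm)) a.ne.symm).2.1))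
  by_cases qY : q ∈ Y
  · have := f.mem_out h qY
    by_cases e : W = ∅
    · simp only [e, ne_eq, not_true, false_and, if_true, if_false] at *
      omega
    · split_ifs at l cW ⊢ <;> omega
  have qW := (mem_union.1 f.mem).resolve_left qY
  have := card_out (G := G) (y := q) (subset_union_left (s₁ := Y) (s₂ := W))
    fun a p => (f.cl.join a p q qW).symm
  have := h.deg' (T.real q hq)
  rw [if_neg fun k => qY k.2] at l
  rw [if_neg (ne_empty_of_mem qW)]
  omega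

theorem owner_pass (h : IsC T) (f : Fam T Y W q) (hD : 14 ≤ D) (k : q ∉ T.O (T.p q)) :
    (Ch T q).card + i2 T q + pb T q + (T.Dr q ∩ (Y ∪ W)).card ≤ 4 := by
  have l := f.drq h hD
  obtain ⟨-, a, b⟩ := h.Ch_pass f.hq (.inr k)
  split_ifs at l with e
  swap
  · omega
  obtain ⟨w, w1, w2⟩ := f.hid_tw h hD f.hq e.2 e.1
  have m := mem_union_right Y w1
  have := b w w2 (fun z => disjoint_left.1 f.disj
    (f.vis w z m (IsB.mem_Bd.1 w2).1.ne.symm).1 w1) (f.cl.real w m)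
  omega

/-- a child of a member of the family has few tails -/
theorem giver (h : IsC T) (f : Fam T Y W q) (_ : 14 ≤ D) (hy : y ∈ T.ch q) (m : y ∈ Y ∪ W)
    (hx : x ∈ T.ch y) : x ∉ Y ∪ W ∧ (jm T x).card ≤ 6 := by
  obtain ⟨p1, p2, p3⟩ := T.mem_ch.1 hx
  have yY := (f.chq hy m).1
  have n : x ∉ Y ∪ W := fun k => by
    by_cases e : x = q
    · exact f.pq (e ▸ p2) (e ▸ p3 ▸ m)
    rcases (f.vis x p1 k e).2.2.2 with z | z
    · have := d_ch hy
      rw [← z, p3] at this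
      omega
    · exact z (p3 ▸ m)
  refine ⟨n, ?_⟩
  by_cases o : x ∈ T.O y
  swap
  · simp [(h.Ch_pass p1 (.inr (p3 ▸ o))).1]
  have := h.jm_far hx o f.clq f.kreal (mem_insert_of_mem yY) (f.kout n) n (fun _ => f.sub)
    (f.kfar p1 n)
  have := f.mem_out h yY
  have big := f.cl.big
  have cW := f.cardW
  split_ifs at big cW <;> omega

end Fam

namespace IsC

variable {T : Tr G D} {x y : V}

/-- The clique of the mutual tails. -/
theorem jm_clq (h : IsC T) (hy : y ∈ T.R) (k : jm T y ≠ ∅) : y ≠ T.r ∧ y ∈ T.O (T.p y) ∧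
    IsClq G (insert (T.p y) (insert y (jm T y))) ∧ insert (T.p y) (insert y (jm T y)) ⊆ T.R ∧
    (insert (T.p y) (insert y (jm T y))).card = (jm T y).card + 2 := by
  obtain ⟨w, hw⟩ := nonempty_iff_ne_empty.2 k
  have r := (mem_W.1 (jm_W hw).1).2.1
  have o := W_par (jm_W hw).1
  refine ⟨r, o, h.clq_sub hy r o (h.ns _ _) fun _ p => (jm_W p).1,
    insert_subset (T.p_mem y hy r) (insert_subset hy fun v p => W_mem hy (jm_W p).1), ?_⟩
  rw [card_insert_of_notMem, card_insert_of_notMem fun p => (mem_W.1 (jm_W p).1).1.ne rfl]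
  exact fun p => (mem_insert.1 p).elim (p_ne hy r) fun p => O_ne_p hy (jm_W p).2 rfl

/-- vertices outside all clusters -/
theorem sparse (h : IsC T) (hD : 14 ≤ D) (hy : y ∈ T.R)
    (n : ∀ Y W q, Fam T Y W q → y ∉ Y ∪ W) : (jm T y).card + 7 ≤ D := by
  by_contra k
  obtain ⟨-, -, a, b, c⟩ := h.jm_clq hy fun e => by
    rw [e, card_empty] at k
    omega
  obtain ⟨Y, W, q, f, s⟩ := h.big_in hD a b (by omega)
  exact n Y W q f (s (by simp))

theorem sparse_ch (h : IsC T) (hD : 14 ≤ D) (hy : y ∈ T.R)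
    (n : ∀ Y W q, Fam T Y W q → y ∉ Y ∪ W) (e : (jm T y).card + 7 = D) (hx : x ∈ T.ch y) :
    (jm T x).card ≤ 7 := by
  obtain ⟨p1, p2, p3⟩ := T.mem_ch.1 hx
  by_cases o : x ∈ T.O y
  swap
  · simp [(h.Ch_pass p1 (.inr (p3 ▸ o))).1]
  obtain ⟨yr, yo, a, b, c⟩ := h.jm_clq hy fun z => by
    rw [z, card_empty] at e
    omega
  generalize hK : insert (T.p y) (insert y (jm T y)) = K at a b c
  have yK : y ∈ K := by simp [← hK]
  have uK : ∀ w ∈ K, w ∉ T.Bd y := fun w p k => by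
    obtain ⟨k1, k2, -⟩ := IsB.mem_Bd.1 k
    rw [← hK] at p
    rcases mem_insert.1 p with z | p
    · exact k2 (z ▸ h.uq_par hy yr yo)
    · exact k2 (h.uq_O hy (jm_W ((mem_insert.1 p).resolve_left k1.ne.symm)).2)
  have xK : x ∉ K := fun p => by
    have := d_ch hx
    have := T.d_p y hy yr
    rw [← hK] at p
    rcases mem_insert.1 p with z | p
    · rw [← z] at this
      omega
    rcases mem_insert.1 p with z | p
    · exact (T.O_adj y hy x o).ne z.symm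
    · have := (W_d hy (jm_W p).1).2
      omega
  have rK : ∀ v ∈ K, v ∉ T.Dm := fun v p => T.real v (b p)
  by_cases f : ∃ w ∈ K, ∃ w' ∈ K, w ≠ w' ∧ ¬ G.Adj x w ∧ ¬ G.Adj x w'
  · have := h.jm_far hx o a rK yK xK xK (fun _ _ k => k) f
    have := card_out (G := G) (y := y) (erase_subset y K) fun w p =>
      a y yK w (mem_erase.1 p).2 (mem_erase.1 p).1.symm
    have := card_erase_add_one yK
    have := h.deg' (T.real y hy)
    omega
  exfalso
  push Not at f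
  by_cases g : ∀ w ∈ K, G.Adj x w
  · obtain ⟨Y, W, q, f, s⟩ := h.big_in hD (K := insert x K) (fun u p v k ne => by
      rcases mem_insert.1 p with p | p <;> rcases mem_insert.1 k with k | k
      exacts [absurd (p.trans k.symm) ne, p ▸ g v k, k ▸ (g u p).symm, a u p v k ne])
      (insert_subset p1 b) (by rw [card_insert_of_notMem xK]; omega)
    exact n Y W q f (s (mem_insert_of_mem yK))
  push Not at g
  obtain ⟨w, w1, w2⟩ := g
  have := card_erase_add_one w1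
  rcases h.tw (Y := K.erase w) (a := x) (b := w) hy
    (fun u p v k => a u (mem_erase.1 p).2 v (mem_erase.1 k).2)
    (mem_erase.2 ⟨fun z => w2 (z ▸ (T.O_adj y hy x o).symm), yK⟩) (by omega)
    (fun v p => (mem_insert.1 p).elim (fun z => z ▸ T.real x p1) fun p => rK v
      ((mem_insert.1 p).elim (fun z => z ▸ w1) fun p => (mem_erase.1 p).2))
    (fun z => xK (z ▸ w1)) w2 (fun v p => ⟨(f w w1 v (mem_erase.1 p).2 (mem_erase.1 p).1.symm
      w2).symm, a v (mem_erase.1 p).2 w w1 (mem_erase.1 p).1⟩) with k | k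
  exacts [(IsB.mem_Bd.1 k).2.1 (h.uq_O hy o), uK w w1 k]

end IsC

end Pool.Agent.Lib.MP_12eaff_co.Frz.FB
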