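import Pool.Agent.Lib.MP_12eaff_co.Frz.FB.Loc

set_option autoImplicit false
set_option linter.unusedSectionVars false

namespace Pool.Agent.Lib.MP_12eaff_co.Frz.FB

open Finset Pool.Agent.Lib.MP_12eaff_co.Frz.BK Pool.Agent.Lib.MP_12eaff_co.Frz.Acc2
open scoped Classical

variable {V : Type} [Fintype V] {G : SimpleGraph V} {D : ℕ}

theorem arith {D m tw lam u l q SX T XQ Xq dl I : ℕ} (hD : 21 ≤ D) (m2 : 2 ≤ m) (m5 : m ≤ 5)
    (t1 : tw ≤ 1) (hl : lam ≤ 1 + tw) (hc : u + l + q + lam + m = D + tw)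
    (h1 : SX + T + l * tw + u * (m + 1) ≤ (u + l) * D + 2 * I)
    (h2 : l * (u + l) ≤ 2 * T + 4 * l) (h3 : XQ ≤ q * max (m + 6) (9 + tw))
    (h4 : Xq ≤ max (m + 4) 8) (h5 : dl ≤ lam * (m + 1)) :
    SX + XQ + Xq + dl + 4 * (q + 1) ≤ (u + l + q + 1) * (D - 3) + 2 * I := by
  obtain ⟨E, rfl⟩ : ∃ E, D = E + 3 := ⟨D - 3, by omega⟩
  have a1 : q * 18 ≤ q * E := Nat.mul_le_mul_left _ (by omega)
  rw [Nat.add_sub_cancel, add_mul, add_mul, one_mul]
  rw [mul_add (u + l)] at h1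
  generalize (u + l) * E = a at *
  generalize q * E = b at *
  obtain ⟨c, e⟩ : ∃ c, u + l = c := ⟨_, rfl⟩
  rw [e] at h1 h2
  by_cases k : 16 ≤ c
  · have := Nat.mul_le_mul_left l k
    interval_cases m <;> interval_cases tw <;> norm_num at h3 h4 <;> omega
  · push Not at k
    interval_cases m <;> interval_cases tw <;> norm_num at h3 h4 <;> interval_cases c <;> omega

/-- Every saved pair is counted at most twice. -/
theorem dbl_cnt (C L : Finset V) (hL : L ⊆ C) (P : V → Finset V) :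
    ∑ y ∈ L, ((C.erase y).filter fun r => r ∉ P y ∨ y ∉ P r).card ≤
      2 * ∑ y ∈ C, (C.erase y \ P y).card := by
  have e : ∀ y, (C.erase y \ P y).card = ∑ r ∈ C, if r ≠ y ∧ r ∉ P y then 1 else 0 := fun y => by
    rw [← card_filter]
    congr 1
    ext r
    simp only [mem_sdiff, mem_erase, mem_filter]
    tauto
  have e2 : ∑ y ∈ C, (C.erase y \ P y).card =
      ∑ y ∈ C, ∑ r ∈ C, if y ≠ r ∧ y ∉ P r then 1 else 0 := by
    rw [sum_comm]
    exact sum_congr rfl fun y _ => e y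
  refine (sum_le_sum_of_subset hL).trans ?_
  rw [two_mul]
  nth_rewrite 2 [e2]
  rw [← sum_add_distrib]
  refine sum_le_sum fun y _ => ?_
  rw [e y, ← sum_add_distrib, ← filter_ne', filter_filter, card_filter]
  refine sum_le_sum fun r _ => ?_
  have := @eq_comm _ y r
  by_cases a : r = y <;> by_cases b : r ∈ P y <;> by_cases c : y ∈ P r <;> simp [a, b, c, this]

theorem Fam.pool {T : Tr G D} {Y W : Finset V} {q : V} (h : IsC T) (f : Fam T Y W q)
    (hD : 21 ≤ D) : ∑ y ∈ T.R ∩ (Y ∪ W), ((Ch T y).card + i2 T y + px T y) +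
      ∑ v ∈ T.R, (T.Dr v ∩ (Y ∪ W)).card + ∑ e ∈ (Y ∪ W) \ T.R, (nb G e ∩ T.Dm).card +
      4 * ((T.R ∩ (Y ∪ W)) \ T.ch q).card ≤
      (T.R ∩ (Y ∪ W)).card * (D - 3) + 2 * ∑ y ∈ T.ch q ∩ (Y ∪ W), i2 T y := by
  have d16 : 14 ≤ D := by omega
  have big := f.cl.big
  have small := f.cl.small
  have late := f.late h d16
  have del := f.delta h
  have own := f.owner h d16
  have owp := f.owner_pass h d16
  obtain ⟨tw, t0, t1, t2⟩ : ∃ tw, (if W = ∅ then 0 else 1) = tw ∧ W.card = 2 * tw ∧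
      (Y ∪ W).card = Y.card + 2 * tw := by
    rcases f.cl.tw with e | ⟨a, b, ab, -, e⟩
    · exact ⟨0, by simp [e], by simp [e], by simp [e]⟩
    · have k : W.card = 2 := by rw [e, card_pair ab]
      refine ⟨1, if_neg fun z => by simp [z] at k, k, ?_⟩
      rw [card_union_of_disjoint (disjoint_left.2 fun x p r => (f.cl.join x p x r).ne rfl), k]
  have tl : tw ≤ 1 := by split_ifs at t0 <;> omega
  obtain ⟨m, hm⟩ : ∃ m, Y.card + m + tw = D + 1 :=
    ⟨D + 1 - tw - Y.card, by split_ifs at t0 small <;> omega⟩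
  set H := Y ∪ W with hH
  set C := T.ch q ∩ H with hC
  set A := T.R ∩ H with hA
  set Q := (A \ T.ch q).erase q with hQ
  have qq : q ∉ T.ch q := fun k => lt_irrefl _ (Tr.d_ch k)
  have qA : q ∈ A \ T.ch q := mem_sdiff.2 ⟨mem_inter.2 ⟨f.hq, f.mem⟩, qq⟩
  have eC : A ∩ T.ch q = C := by
    ext x
    simp only [hA, hC, mem_inter]
    exact ⟨fun k => ⟨k.2, k.1.2⟩, fun k => ⟨⟨(T.mem_ch.1 k.1).1, k.2⟩, k.1⟩⟩
  have sp : ∀ g : V → ℕ, ∑ y ∈ A, g y = ∑ y ∈ C, g y + ∑ y ∈ Q, g y + g q := fun g => by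
    rw [← sum_inter_add_sum_sdiff A (T.ch q), eC, add_assoc, hQ, sum_erase_add _ _ qA]
  have cA : A.card = C.card + Q.card + 1 := by simpa using sp fun _ => 1
  have cQ : (A \ T.ch q).card = Q.card + 1 := (card_erase_add_one qA).symm
  have cH : A.card + (H \ T.R).card = H.card := by
    rw [hA, inter_comm, card_inter_add_card_sdiff]
  set Lo := C.filter (Loud T H) with hLo
  have cL : Lo.card + (C.filter fun y => ¬ Loud T H y).card = C.card :=
    card_filter_add_card_filter_not (Loud T H)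
  set X : V → ℕ := fun y => (Ch T y).card + i2 T y + px T y + (T.Dr y ∩ H).card with hX
  have h1 : ∀ y ∈ C, X y + (C.erase y \ Ch T y).card + (if Loud T H y then tw else m + 1) ≤
      D + 2 * i2 T y := fun y k => by
    obtain ⟨k1, k2⟩ := mem_inter.1 k
    have yR := (T.mem_ch.1 k1).1
    have a1 := f.mem_in h d16 k1 k2
    have vy := f.vis y yR k2 fun e => qq (e ▸ k1)
    have a2 := f.mem_out h vy.1
    have a0 : px T y = 0 := if_neg fun e => e.2 ((T.mem_ch.1 k1).2.2.symm ▸ vy.2.1)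
    have a3 := card_inter_add_card_sdiff (Ch T y) H
    have a4 : (Ch T y \ H).card ≤ (nb G y \ H).card := card_le_card fun v p =>
      mem_sdiff.2 ⟨mem_nb.2 (T.O_adj v (h.Ch_in yR (mem_sdiff.1 p).1).1 y
        (T.mem_NT.1 (h.Ch_in yR (mem_sdiff.1 p).1).2).1).symm, (mem_sdiff.1 p).2⟩
    rw [← hH] at a2
    rw [← hH, ← hC] at a1
    simp only [hX]
    by_cases l : Loud T H y
    · rw [if_pos l]
      split_ifs at a1 t0 <;> omega
    · have := (Fam.mem_quiet h yR l).1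
      rw [if_neg l]
      split_ifs at a1 t0 <;> omega
  have s1 := sum_le_sum h1
  rw [sum_add_distrib, sum_add_distrib, sum_ite, sum_add_distrib (f := fun _ => D),
    ← mul_sum] at s1
  simp only [sum_const, smul_eq_mul] at s1
  change _ + (Lo.card * tw + _) ≤ _ at s1
  have s2 := (sum_le_sum (s := Lo) (f := fun _ => C.card) fun y k =>
    f.loud_cnt h (mem_inter.1 (mem_filter.1 k).1).1 (mem_inter.1 (mem_filter.1 k).1).2
      (mem_filter.1 k).2)
  rw [sum_add_distrib, ← hH, ← hC] at s2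
  simp only [sum_const, smul_eq_mul] at s2
  have s3 := dbl_cnt C Lo (filter_subset _ _) (Ch T)
  have s4 : ∑ y ∈ Q, X y ≤ Q.card * max (m + 6) (9 + tw) := by
    rw [← smul_eq_mul, ← sum_const]
    refine sum_le_sum fun y k => ?_
    obtain ⟨k1, k2⟩ := mem_erase.1 k
    obtain ⟨k3, k4⟩ := mem_sdiff.1 k2
    obtain ⟨k5, k6⟩ := mem_inter.1 k3
    have := f.entry h d16 k5 k6 k1 fun e =>
      k4 (T.mem_ch.2 ⟨k5, (f.vis y k5 k6 k1).2.2.1, e⟩)
    rw [← hH] at this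
    simp only [hX, px]
    split_ifs with e
    · have a1 := (h.Ch_pass k5 (.inr e.2)).2.1
      have a2 : (T.Dr y ∩ H).card ≤ (H \ T.R).card := card_le_card fun u p =>
        mem_sdiff.2 ⟨(mem_inter.1 p).2, (h.drop y k5 u (mem_inter.1 p).1
          (f.cl.real u (mem_inter.1 p).2)).1⟩
      split_ifs at late t0 <;> omega
    · split_ifs at this t0 <;> omega
  have s5 : ∑ y ∈ A, ((Ch T y).card + i2 T y + px T y) + ∑ v ∈ T.R, (T.Dr v ∩ H).card =
      ∑ y ∈ A, X y + ∑ v ∈ T.R \ H, (T.Dr v ∩ H).card := by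
    rw [← sum_inter_add_sum_sdiff T.R H, ← add_assoc, ← sum_add_distrib]
  have e5 : D + (if W = ∅ then 2 else 1) - Y.card = m + 1 := by split_ifs at t0 ⊢ <;> omega
  rw [e5] at del
  have := arith (D := D) (m := m) (tw := tw) (lam := (H \ T.R).card)
    (u := (C.filter fun y => ¬ Loud T H y).card) (l := Lo.card) (q := Q.card)
    (SX := ∑ y ∈ C, X y) (T := ∑ y ∈ C, (C.erase y \ Ch T y).card) (XQ := ∑ y ∈ Q, X y)
    (Xq := X q) (dl := ∑ v ∈ T.R \ H, (T.Dr v ∩ H).card + ∑ e ∈ H \ T.R, (nb G e ∩ T.Dm).card) (I := ∑ y ∈ C, i2 T y) hD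
    (by split_ifs at t0 small <;> omega) (by split_ifs at t0 big <;> omega) tl
    (by split_ifs at t0 late <;> omega) (by omega)
    (by rw [add_comm _ Lo.card, cL]; omega) (by rw [add_comm _ Lo.card, cL]; omega) s4
    (by
      simp only [hX, px]
      split_ifs with e
      · have := owp e.2
        omega
      · split_ifs at t0 own <;> omega) del
  rw [s5, sp X, cQ, cA, ← cL, add_comm Lo.card]
  omega

/-- `y` lies in a visited cluster. -/
def InH (T : Tr G D) (y : V) : Prop := ∃ Y W q, Fam T Y W q ∧ y ∈ Y ∪ W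

/-- `y` is a child of the owner of its cluster. -/
def InC (T : Tr G D) (y : V) : Prop := ∃ Y W q, Fam T Y W q ∧ y ∈ T.ch q ∧ y ∈ Y ∪ W

/-- The gift that `y` gets from each child. -/
noncomputable def nd (T : Tr G D) (y : V) : ℕ :=
  if T.ch y = ∅ then 0 else if InC T y then 4 else
    if ¬ InH T y ∧ (jm T y).card + 7 = D then 1 else 0

/-- The gift that `x` gives to its parent. -/
noncomputable def gv (T : Tr G D) (x : V) : ℕ := if x = T.r then 0 else nd T (T.p x)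

theorem gv_le (T : Tr G D) (x : V) : gv T x ≤ 4 := by
  unfold gv nd
  split_ifs <;> omega

theorem nd_gv (T : Tr G D) : ∑ y ∈ T.R, nd T y ≤ ∑ y ∈ T.R, gv T y := by
  refine le_trans (sum_le_sum fun y _ => ?_) (T.sum_sum_ch fun x => nd T (T.p x)).le
  by_cases e : T.ch y = ∅
  · simp [nd, e]
  · obtain ⟨x, k⟩ := nonempty_iff_ne_empty.2 e
    refine le_trans ?_ (single_le_sum (fun _ _ => Nat.zero_le _) k)
    rw [(T.mem_ch.1 k).2.2]

theorem sum_split {ι : Type} (F : Finset ι) (H : ι → Finset V)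
    (d : (F : Set ι).PairwiseDisjoint H) (S : Finset V) (g : V → ℕ) :
    ∑ y ∈ S, g y = ∑ p ∈ F, ∑ y ∈ S ∩ H p, g y + ∑ y ∈ S \ F.biUnion H, g y := by
  rw [← sum_inter_add_sum_sdiff S (F.biUnion H), inter_biUnion,
    sum_biUnion (d.mono fun _ => inter_subset_right)]

theorem IsC.free {T : Tr G D} (h : IsC T) (hD : 21 ≤ D) {y : V} (hy : y ∈ T.R) (n : ¬ InH T y) :
    (Ch T y).card + i2 T y + px T y + gv T y ≤ D - 3 + nd T y := by
  have g := gv_le T y
  have a := h.Ch_le hy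
  have s := h.sparse (by omega) hy fun Y W q f k => n ⟨Y, W, q, f, k⟩
  unfold px
  split_ifs with e
  · have := (h.Ch_pass hy (.inr e.2)).2.1
    omega
  have b : (Ch T y).card + i2 T y ≤ D - 3 + nd T y := by
    unfold nd
    split_ifs at a ⊢ with l c k
    · omega
    · omega
    · omega
    · have : ¬ (jm T y).card + 7 = D := fun z => k ⟨n, z⟩
      omega
  have a' : (Ch T y).card + i2 T y ≤ (jm T y).card + 5 := by split_ifs at a <;> omega
  by_cases r : y = T.r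
  · rw [gv, if_pos r]
    omega
  have c : y ∈ T.ch (T.p y) := T.mem_ch.2 ⟨hy, r, rfl⟩
  by_cases k : InC T (T.p y)
  · obtain ⟨Y, W, q, f, k1, k2⟩ := k
    have := (f.giver h (by omega) k1 k2 c).2
    omega
  rw [gv, if_neg r, nd, if_neg (ne_empty_of_mem c), if_neg k]
  split_ifs with z
  · have := h.sparse_ch (by omega) (T.p_mem y hy r) (fun Y W q f k => z.1 ⟨Y, W, q, f, k⟩) z.2 c
    omega
  · omega

theorem Fam.pool' {T : Tr G D} {Y W : Finset V} {q : V} (h : IsC T) (f : Fam T Y W q)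
    (hD : 21 ≤ D) : ∑ y ∈ T.R ∩ (Y ∪ W), ((Ch T y).card + i2 T y + px T y + gv T y) +
      ∑ v ∈ T.R, (T.Dr v ∩ (Y ∪ W)).card + ∑ e ∈ (Y ∪ W) \ T.R, (nb G e ∩ T.Dm).card ≤
      ∑ y ∈ T.R ∩ (Y ∪ W), (D - 3 + nd T y) := by
  have p := f.pool h hD
  have z : nd T q = 0 := by
    unfold nd
    split_ifs with l c k
    · rfl
    · obtain ⟨Y', W', q', f', k1, k2⟩ := c
      obtain ⟨rfl, rfl, -⟩ := f.uniq h (by omega) f' f.mem k2
      obtain ⟨-, b, c⟩ := T.mem_ch.1 k1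
      exact absurd (c ▸ f'.mem) (f.pq b)
    · exact absurd ⟨Y, W, q, f, f.mem⟩ k.1
    · rfl
  have a : ∑ y ∈ T.R ∩ (Y ∪ W), gv T y ≤ 4 * ((T.R ∩ (Y ∪ W)) \ T.ch q).card := by
    rw [← sum_inter_add_sum_sdiff _ (T.ch q), sum_eq_zero, zero_add, mul_comm, ← smul_eq_mul,
      ← sum_const]
    · exact sum_le_sum fun y _ => gv_le T y
    · intro y k
      obtain ⟨-, b, c⟩ := T.mem_ch.1 (mem_inter.1 k).2
      rw [gv, if_neg b, c, z]
  have b : 2 * ∑ y ∈ T.ch q ∩ (Y ∪ W), i2 T y ≤ ∑ y ∈ T.R ∩ (Y ∪ W), nd T y := by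
    rw [mul_sum]
    refine (sum_le_sum fun y k => ?_).trans (sum_le_sum_of_subset
      (inter_subset_inter (fun y k => (T.mem_ch.1 k).1) Subset.rfl))
    rw [i2, nd, if_pos (show InC T y from ⟨Y, W, q, f, (mem_inter.1 k).1, (mem_inter.1 k).2⟩)]
    split_ifs <;> omega
  rw [sum_add_distrib, sum_add_distrib (f := fun _ => D - 3), sum_const, smul_eq_mul]
  omega

theorem IsC.ledger {T : Tr G D} (h : IsC T) (hD : 21 ≤ D) :
    ∑ y ∈ T.R, ((Ch T y).card + i2 T y + px T y + (T.Dr y \ T.Dm).card) +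
      ∑ e ∈ Late T, (nb G e ∩ T.Dm).card ≤ ∑ _y ∈ T.R, (D - 3) := by
  set F := univ.filter fun p : Finset V × Finset V => ∃ q, Fam T p.1 p.2 q with hF
  have mF : ∀ y, y ∈ F.biUnion (fun p => p.1 ∪ p.2) ↔ InH T y := fun y => by
    simp only [hF, mem_biUnion, mem_filter, mem_univ, true_and, InH]
    exact ⟨fun ⟨p, ⟨q, f⟩, k⟩ => ⟨_, _, q, f, k⟩, fun ⟨Y, W, q, f, k⟩ => ⟨(Y, W), ⟨q, f⟩, k⟩⟩
  have d : (F : Set (Finset V × Finset V)).PairwiseDisjoint fun p => p.1 ∪ p.2 :=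
    fun p a p' b ne => disjoint_left.2 fun u k k' => by
      obtain ⟨q, f⟩ := (mem_filter.1 a).2
      obtain ⟨q', f'⟩ := (mem_filter.1 b).2
      obtain ⟨e, e', -⟩ := f.uniq h (by omega) f' k k'
      exact ne (Prod.ext e e')
  have s := sum_split F _ d
  have a1 := sum_le_sum (s := F) fun p a => (mem_filter.1 a).2.choose_spec.pool' h hD
  have a2 := sum_le_sum (s := T.R \ F.biUnion fun p => p.1 ∪ p.2) fun y k =>
    h.free hD (mem_sdiff.1 k).1 fun z => (mem_sdiff.1 k).2 ((mF y).2 z)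
  have a3 : ∑ e ∈ Late T, (nb G e ∩ T.Dm).card ≤
      ∑ p ∈ F, ∑ e ∈ (p.1 ∪ p.2) \ T.R, (nb G e ∩ T.Dm).card := by
    rw [s, sum_eq_zero (s := Late T \ _) fun e k => absurd
      ((mF e).2 (mem_filter.1 (mem_sdiff.1 k).1).2.2) (mem_sdiff.1 k).2, add_zero]
    exact sum_le_sum fun p _ => sum_le_sum_of_subset fun e k =>
      mem_sdiff.2 ⟨(mem_inter.1 k).2, (mem_filter.1 (mem_inter.1 k).1).2.1⟩
  have a4 : ∑ y ∈ T.R, (T.Dr y \ T.Dm).card ≤
      ∑ p ∈ F, ∑ v ∈ T.R, (T.Dr v ∩ (p.1 ∪ p.2)).card := by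
    rw [sum_comm]
    refine sum_le_sum fun v hv => le_trans (card_le_card fun u k => ?_) card_biUnion_le
    obtain ⟨k1, k2⟩ := mem_sdiff.1 k
    obtain ⟨p, a, b⟩ := mem_biUnion.1 ((mF u).2 (h.drop v hv u k1 k2).2)
    exact mem_biUnion.2 ⟨p, a, mem_inter.2 ⟨k1, b⟩⟩
  have a5 := nd_gv T
  have a6 := s T.R fun y => (Ch T y).card + i2 T y + px T y + gv T y
  have a7 := s T.R fun y => D - 3 + nd T y
  rw [sum_add_distrib, sum_add_distrib] at a1
  rw [sum_add_distrib] at a6 a7 ⊢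
  omega

end Pool.Agent.Lib.MP_12eaff_co.Frz.FB
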